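import Pool.Agent.W763.PB.Stm

/-!
Part PB-L1: Hilbert direct limits.
-/

set_option autoImplicit false

namespace Pool.Agent.W368.PB

open Pool.Agent.W763.PB Filter Topology
open scoped InnerProductSpace

variable {H : ℕ → Type} [∀ l, NormedAddCommGroup (H l)] [∀ l, InnerProductSpace ℂ (H l)]

/-- one step -/
theorem step [∀ l, CompleteSpace (H l)] (J : ∀ l, H l →ₗᵢ[ℂ] H (l + 1)) (l : ℕ)
    (a : H l →ₗᵢ[ℂ] lp H 2) (ha : ∀ x m, l < m → a x m = 0) :
    ∃ b : H (l + 1) →ₗᵢ[ℂ] lp H 2, (∀ x m, l + 1 < m → b x m = 0) ∧ ∀ x, b (J l x) = a x := by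
  set P : H (l + 1) →L[ℂ] H l := ContinuousLinearMap.adjoint (J l).toContinuousLinearMap with hP
  have hPJ : ∀ x, P (J l x) = x := by
    intro x
    refine ext_inner_left ℂ fun v => ?_
    rw [hP, ContinuousLinearMap.adjoint_inner_right]
    exact (J l).inner_map_map v x
  let b₀ : H (l + 1) →ₗ[ℂ] lp H 2 := a.toLinearMap ∘ₗ P.toLinearMap +
    (lp.lsingle (𝕜 := ℂ) (E := H) 2 (l + 1)) ∘ₗ
      (LinearMap.id - (J l).toLinearMap ∘ₗ P.toLinearMap)
  have hb₀ : ∀ f, b₀ f = a (P f) + lp.single 2 (l + 1) (f - J l (P f)) := fun f => rfl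
  have hnorm : ∀ f, ‖b₀ f‖ = ‖f‖ := by
    intro f
    have h1 : ⟪a (P f), lp.single 2 (l + 1) (f - J l (P f))⟫_ℂ = 0 := by
      rw [lp.inner_single_right, ha _ _ (Nat.lt_succ_self l), inner_zero_left]
    have h2 : ⟪J l (P f), f - J l (P f)⟫_ℂ = 0 := by
      have h3 : ⟪J l (P f), f - J l (P f)⟫_ℂ = ⟪P f, P (f - J l (P f))⟫_ℂ := by
        rw [hP, ContinuousLinearMap.adjoint_inner_right]
        rfl
      rw [h3, map_sub, hPJ, sub_self, inner_zero_right]
    have h4 := norm_add_sq_eq_norm_sq_add_norm_sq_of_inner_eq_zero _ _ h1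
    have h5 := norm_add_sq_eq_norm_sq_add_norm_sq_of_inner_eq_zero _ _ h2
    rw [add_sub_cancel] at h5
    rw [lp.norm_single (by norm_num), a.norm_map] at h4
    rw [(J l).norm_map] at h5
    rw [← h5, ← hb₀] at h4
    exact (mul_self_inj (norm_nonneg _) (norm_nonneg _)).1 h4
  refine ⟨⟨b₀, hnorm⟩, ?_, ?_⟩
  · intro x m hm
    show (b₀ x) m = 0
    rw [hb₀, lp.coeFn_add, Pi.add_apply, ha _ _ (by omega), lp.single_apply_ne _ _ _ (by omega),
      add_zero]
  · intro x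
    show b₀ (J l x) = a x
    rw [hb₀, hPJ, sub_self, lp.single_zero, add_zero]

/-- the start -/
noncomputable def base : H 0 →ₗᵢ[ℂ] lp H 2 where
  toLinearMap := lp.lsingle (𝕜 := ℂ) (E := H) 2 0
  norm_map' := fun x => lp.norm_single (by norm_num) 0 x

theorem base_apply (x : H 0) (m : ℕ) (hm : 0 < m) : (base x : lp H 2) m = 0 :=
  lp.single_apply_ne _ _ _ (by omega)

/-- the sequence of embeddings -/
noncomputable def sq [∀ l, CompleteSpace (H l)] (J : ∀ l, H l →ₗᵢ[ℂ] H (l + 1)) :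
    ∀ l, {a : H l →ₗᵢ[ℂ] lp H 2 // ∀ x m, l < m → a x m = 0}
  | 0 => ⟨base, base_apply⟩
  | l + 1 => ⟨Classical.choose (step J l (sq J l).1 (sq J l).2),
      (Classical.choose_spec (step J l (sq J l).1 (sq J l).2)).1⟩

theorem sq_succ [∀ l, CompleteSpace (H l)] (J : ∀ l, H l →ₗᵢ[ℂ] H (l + 1)) (l : ℕ) (x : H l) :
    (sq J (l + 1)).1 (J l x) = (sq J l).1 x :=
  (Classical.choose_spec (step J l (sq J l).1 (sq J l).2)).2 x

theorem l1 : S_L1 := by
  intro H _ _ _ J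
  let R : ℕ → Submodule ℂ (lp H 2) := fun l => LinearMap.range (sq J l).1.toLinearMap
  have hR : ∀ l x, (sq J l).1 x ∈ R l := fun l x => ⟨x, rfl⟩
  have hmono : Monotone R := by
    refine monotone_nat_of_le_succ fun l => ?_
    rintro _ ⟨x, rfl⟩
    exact ⟨J l x, sq_succ J l x⟩
  let E : Submodule ℂ (lp H 2) := (⨆ l, R l).topologicalClosure
  have hE : ∀ l x, (sq J l).1 x ∈ E := fun l x =>
    Submodule.le_topologicalClosure _ (Submodule.mem_iSup_of_mem l (hR l x))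
  have hc : CompleteSpace E := (Submodule.isClosed_topologicalClosure _).completeSpace_coe
  let i : ∀ l, H l →ₗᵢ[ℂ] E := fun l =>
    { toLinearMap := LinearMap.codRestrict E (sq J l).1.toLinearMap (hE l)
      norm_map' := fun x => (sq J l).1.norm_map x }
  have hi : ∀ l x, ((i l x : E) : lp H 2) = (sq J l).1 x := fun l x => rfl
  refine ⟨E, inferInstance, inferInstance, hc, i, ?_, ?_⟩
  · intro l x
    apply Subtype.ext
    rw [hi, hi, sq_succ]
  · rw [Metric.dense_iff]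
    intro y r hr
    have hy : (y : lp H 2) ∈ closure ((⨆ l, R l : Submodule ℂ (lp H 2)) : Set (lp H 2)) := y.2
    obtain ⟨z, hz, hyz⟩ := Metric.mem_closure_iff.1 hy r hr
    obtain ⟨l, hl⟩ := (Submodule.mem_iSup_of_directed R hmono.directed_le).1 hz
    obtain ⟨x, rfl⟩ := hl
    refine ⟨i l x, ?_, Set.mem_iUnion.2 ⟨l, x, rfl⟩⟩
    rw [Metric.mem_ball, dist_comm]
    exact hyz

end Pool.Agent.W368.PB
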